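import Pool.Agent.Helper72.F5.ShardC
import Pool.Agent.Helper80.KD.Mach
import Pool.Agent.Helper31.F5.Ops

/-!
# The machine and the root tasks of the shards
-/

set_option autoImplicit false

namespace Pool.Agent.Helper72.F5

open Pool.Agent.Helper28.TP (Ops Ivl)
open Pool.Agent.Helper80.TP (Item)
open Pool.Agent.Helper82.FL (V mkV)

/-- one more element -/
def c (a : Nat) (l : List Nat) : List Nat := List.cons a l

/-- one more step of a path -/
def p (a k : Nat) (l : List (Nat × Nat)) : List (Nat × Nat) := List.cons (a, k) l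

/-- the empty path -/
def pn : List (Nat × Nat) := []

theorem ClAll.zero {V I : Type} {o : Ops V I} {t : Pool.Agent.Helper28.TP.Task V I} {p : List (Nat × Nat)}
    {tok : Nat} : ClAll o t p tok 0 := trivial

theorem ClAll.succ {V I : Type} {o : Ops V I} {t : Pool.Agent.Helper28.TP.Task V I} {p : List (Nat × Nat)}
    {tok n : Nat} (h : ClAll o t p tok n) (h' : Cl o t ((tok, n) :: p)) : ClAll o t p tok (Nat.succ n) := ⟨h, h'⟩

/-- bit `i` of the mask -/
def cb (m i : Nat) : Bool := Nat.beq (Nat.mod (Nat.shiftRight m i) 2) 1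

/-- the operations of the mask `m`: facet `i` is in the class A iff bit `i - 1` is set -/
noncomputable def O (m : Nat) : Ops V Item :=
  Pool.Agent.Helper31.F5.opsF (cb m 0) (cb m 1) (cb m 2)

/-- the label tag of the point with the code `z` -/
def rt (w k z : Nat) : Item := Item.t (Nat.mul 2 (Nat.add (Nat.mod (Nat.shiftRight w (Nat.mul 3 k)) 8) (Nat.mul 8 z)))

/-- the root task of the word with the code `w` (label of the point `k` = digit `k` in base 8) -/
def R (w : Nat) : Pool.Agent.Helper28.TP.Task V Item where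
  cs := [mkV 0 1 0 0 0 0 1, mkV 0 0 1 0 0 0 1, mkV 0 0 0 1 0 0 1, mkV 0 0 0 0 1 0 1, mkV 0 0 0 0 0 1 1]
  env := [rt w 0 2184, rt w 1 2185, rt w 2 2201, rt w 3 2200, rt w 4 1928, rt w 5 2457]
  box := [⟨0, 65536⟩, ⟨0, 65536⟩, ⟨0, 65536⟩, ⟨0, 65536⟩]

/-- the code of a word -/
def wc (l : Fin 6 → Fin 5) : Nat :=
  (l 0).val + 8 * (l 1).val + 64 * (l 2).val + 512 * (l 3).val + 4096 * (l 4).val + 32768 * (l 5).val

end Pool.Agent.Helper72.F5
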