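import Pool.Agent.Helper72.F5.Mach
import Pool.Agent.Helper31.F5.OpsEq

/-!
# The operations of the shards are those of `opsD`
-/

set_option autoImplicit false

namespace Pool.Agent.Helper72.F5

theorem O_opsD (m : Nat) : O m = Pool.Agent.Helper80.KD.opsD (cb m 0) (cb m 1) (cb m 2) :=
  Pool.Agent.Helper31.F5.opsF_eq _ _ _

end Pool.Agent.Helper72.F5
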