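import Pool.Agent.Helper28.TP.EngSound
import Pool.Agent.Helper80.TP.FEng

/-!
# Shards of a refutation tree

The tree is cut into subtrees.  A path is a list of pairs (token, number of the child), the LAST
step first.  `Cl o t p` : the task at the end of the path `p` is impossible.
-/

set_option autoImplicit false

namespace Pool.Agent.Helper72.F5

open Pool.Agent.Helper28.TP Pool.Agent.Helper80.TP

variable {V I : Type}

/-- the task at the end of a path (last step first) -/
def goto (o : Ops V I) (t : Pool.Agent.Helper28.TP.Task V I) : List (Nat × Nat) → Option (Pool.Agent.Helper28.TP.Task V I)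
  | [] => some t
  | (tok, k) :: p =>
    match goto o t p with
    | none => none
    | some u =>
      match step o [] u tok with
      | none => none
      | some l => nth l k

/-- the task at the end of the path is impossible -/
def Cl (o : Ops V I) (t : Pool.Agent.Helper28.TP.Task V I) (p : List (Nat × Nat)) : Prop :=
  ∀ g : Geo V I, OpsOK g o → ∀ u, goto o t p = some u → ¬ u.holds g

/-- the first `n` children are impossible -/
def ClAll (o : Ops V I) (t : Pool.Agent.Helper28.TP.Task V I) (p : List (Nat × Nat)) (tok : Nat) : Nat → Prop
  | 0 => True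
  | n + 1 => ClAll o t p tok n ∧ Cl o t ((tok, n) :: p)

theorem ClAll.get {o : Ops V I} {t : Pool.Agent.Helper28.TP.Task V I} {p : List (Nat × Nat)} {tok : Nat} :
    ∀ {n : Nat}, ClAll o t p tok n → ∀ {k : Nat}, k < n → Cl o t ((tok, k) :: p)
  | 0, _, _, hk => absurd hk (Nat.not_lt_zero _)
  | n + 1, h, k, hk => by
    rcases Nat.lt_or_ge k n with h1 | h1
    · exact ClAll.get h.1 h1
    · have : k = n := by omega
      subst this
      exact h.2

/-- the number of children is at most `n` -/
def kidsLe (o : Ops V I) (t : Pool.Agent.Helper28.TP.Task V I) (p : List (Nat × Nat)) (tok n : Nat) : Bool :=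
  match goto o t p with
  | none => true
  | some u =>
    match step o [] u tok with
    | none => false
    | some l => Nat.ble l.length n

/-- check of a subtree -/
noncomputable def runSh (o : Ops V I) (t : Pool.Agent.Helper28.TP.Task V I) (p : List (Nat × Nat)) (toks : List Nat) : Bool :=
  @Option.rec (Pool.Agent.Helper28.TP.Task V I) (fun _ => Bool) true
    (fun u => runF o.mid (fun cs env box => o.leaf ⟨cs, env, box⟩) o.rule (fun _ _ _ _ => false)
      toks [u]) (goto o t p)

theorem nth_of_mem {α : Type} (l : List α) (a : α) (h : a ∈ l) : ∃ k, k < l.length ∧ nth l k = some a := by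
  induction l with
  | nil => cases h
  | cons b l ih =>
    rcases List.mem_cons.mp h with rfl | h
    · exact ⟨0, by simp, rfl⟩
    · obtain ⟨k, hk, hk'⟩ := ih h
      exact ⟨k + 1, by simpa using hk, hk'⟩

theorem refO_nil (o : Ops V I) : refO o [] = fun _ _ _ _ => false := by
  funext k cs env box
  unfold refO
  cases k <;> rfl

theorem Cl.leaf {o : Ops V I} {t : Pool.Agent.Helper28.TP.Task V I} {p : List (Nat × Nat)} (toks : List Nat)
    (h : runSh o t p toks = true) : Cl o t p := by
  intro g ho u hu
  unfold runSh at h
  rw [hu] at h
  have h' : runF o.mid (fun cs env box => o.leaf ⟨cs, env, box⟩) o.rule (refO o []) toks [u] = true := by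
    rw [refO_nil]; exact h
  rw [runF_eq] at h'
  exact run_sound ho [] (by simp) toks [u] h' u (by simp)

theorem Cl.node {o : Ops V I} {t : Pool.Agent.Helper28.TP.Task V I} {p : List (Nat × Nat)} (tok n : Nat)
    (h : kidsLe o t p tok n = true) (hc : ClAll o t p tok n) : Cl o t p := by
  intro g ho u hu hX
  unfold kidsLe at h
  rw [hu] at h
  simp only at h
  cases hs : step o [] u tok with
  | none => rw [hs] at h; cases h
  | some l =>
    rw [hs] at h
    simp only at h
    have hl : l.length ≤ n := Nat.le_of_ble_eq_true h
    obtain ⟨v, hv, hv'⟩ := step_sound ho [] (by simp) u hX tok l hs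
    obtain ⟨k, hk, hk'⟩ := nth_of_mem l v hv
    refine ClAll.get hc (Nat.lt_of_lt_of_le hk hl) g ho v ?_ hv'
    have : goto o t ((tok, k) :: p) = nth l k := by
      show (match goto o t p with
        | none => none
        | some u =>
          match step o [] u tok with
          | none => none
          | some l => nth l k) = nth l k
      rw [hu]
      simp only [hs]
    rw [this, hk']

/-- the whole tree -/
theorem Cl.root {o : Ops V I} {t : Pool.Agent.Helper28.TP.Task V I} (h : Cl o t []) (g : Geo V I)
    (ho : OpsOK g o) : ¬ t.holds g := h g ho t rfl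

end Pool.Agent.Helper72.F5
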