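import Pool.Agent.Helper72.F5.Shard
import Pool.Agent.Helper80.TP.CEng

/-!
# Shards with reuse of certificates

`Cl.leafC`: a subtree checked by the machine `runC` (token `8 k + 5` = certificate number `k` of
those met so far in the same shard).
-/

set_option autoImplicit false

namespace Pool.Agent.Helper72.F5

open Pool.Agent.Helper28.TP Pool.Agent.Helper80.TP

variable {V I : Type}

/-- check of a subtree, with reuse of certificates -/
noncomputable def runShC (o : Ops V I) (t : Pool.Agent.Helper28.TP.Task V I) (p : List (Nat × Nat)) (toks : List Nat) : Bool :=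
  @Option.rec (Pool.Agent.Helper28.TP.Task V I) (fun _ => Bool) true
    (fun u => runC o.mid (fun cs env box => o.leaf ⟨cs, env, box⟩) o.rule (fun _ _ _ _ => false)
      toks [u] []) (goto o t p)

theorem Cl.leafC {o : Ops V I} {t : Pool.Agent.Helper28.TP.Task V I} {p : List (Nat × Nat)} (toks : List Nat)
    (h : runShC o t p toks = true) : Cl o t p := by
  intro g ho u hu
  unfold runShC at h
  rw [hu] at h
  have h' : runC o.mid (fun cs env box => o.leaf ⟨cs, env, box⟩) o.rule (refO o []) toks [u] [] = true := by
    rw [refO_nil]; exact h
  obtain ⟨toks', h''⟩ := runC_sound o [] toks [u] [] h'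
  exact run_sound ho [] (by simp) toks' [u] h'' u (by simp)

end Pool.Agent.Helper72.F5
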